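import Pool.Agent.V11109.Char.Main
import Pool.Agent.V11109.Char.Haar

/-!
# `C([0,1])` is not absorbed by all infinite reduced free products

Take `C k = ℂ ⊕ ℂ` with the trace of weights `1 / (1 + y²)` and `y² / (1 + y²)`, `y = 2^{-(k+1)}`.
The operators `e_k` (centred and normalized elements of `C k`) have the common eigenvector
`∑_w (∏_{k ∈ w} y k) e_w`, because `∑ y² < 1`, so the reduced free product `A` of the `C k` has a
character. By Powers' averaging, a character of `C([0,1]) * A` must agree with the trace on `A`,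
but the trace of `A` is not multiplicative. So `C([0,1]) * A` has no character.
-/

set_option autoImplicit false

namespace Pool.Agent.Results.MP_88a42c_an.CharacterObstruction

open Pool.Agent.V11109.Free Pool.Agent.V11109.Char

/-- There are separable unital C*-algebras `C 0, C 1, ...`, each different from `ℂ`, with faithful
tracial states `σ 0, σ 1, ...`, whose reduced free product `(A, φ)` is not isomorphic (as a
C*-algebra) to the reduced free product `E` of `C([0,1])` with the Lebesgue state and `(A, φ)`.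
(These reduced free products exist and the statement holds for all models of them.) -/
theorem result : ∃ (C : ℕ → Type) (_ : ∀ k, CStarAlgebra (C k)) (σ : ∀ k, C k →ₗ[ℂ] ℂ),
    (∀ k, TopologicalSpace.SeparableSpace (C k)) ∧
    (∀ k, ∃ x : C k, ∀ z : ℂ, x ≠ z • (1 : C k)) ∧
    (∀ k, IsState (σ k)) ∧ (∀ k x, σ k (star x * x) = 0 → x = 0) ∧
    (∀ k x y, σ k (x * y) = σ k (y * x)) ∧
    (∃ (A : Type) (_ : CStarAlgebra A) (φ : A →ₗ[ℂ] ℂ) (e : ∀ k, C k →⋆ₐ[ℂ] A),
      IsReducedFreeProd C σ φ e) ∧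
    ∀ (A : Type) [CStarAlgebra A] (φ : A →ₗ[ℂ] ℂ) (e : ∀ k, C k →⋆ₐ[ℂ] A),
      IsReducedFreeProd C σ φ e →
      (∃ (E : Type) (_ : CStarAlgebra E) (θ : E →ₗ[ℂ] ℂ) (i : C(unitInterval, ℂ) →⋆ₐ[ℂ] E)
        (j : A →⋆ₐ[ℂ] E), IsReducedFreeProd₂ lebL φ θ i j) ∧
      ∀ (E : Type) [CStarAlgebra E] (θ : E →ₗ[ℂ] ℂ) (i : C(unitInterval, ℂ) →⋆ₐ[ℂ] E)
        (j : A →⋆ₐ[ℂ] E), IsReducedFreeProd₂ lebL φ θ i j → IsEmpty (A ≃⋆ₐ[ℂ] E) := by
  refine ⟨fun _ => ℂ × ℂ, fun _ => inferInstance, tr, fun _ => inferInstance, fun k => ?_,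
    tr_state, tr_faithful, fun k x y => by rw [mul_comm],
    exists_rfp (fun _ => ℂ × ℂ) tr tr_state, ?_⟩
  · refine ⟨(1, 0), fun z hz => ?_⟩
    have h1 : (1 : ℂ) = z * 1 := congrArg Prod.fst hz
    have h2 : (0 : ℂ) = z * 1 := congrArg Prod.snd hz
    rw [← h2] at h1
    exact one_ne_zero h1
  · intro A _ φ e h
    refine ⟨exists_rfp₂ lebL_state h.state, ?_⟩
    intro E _ θ i j hE
    refine ⟨fun Φ => ?_⟩
    obtain ⟨χ⟩ := exists_character h
    -- the transported character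
    let χ' : E →⋆ₐ[ℂ] ℂ := χ.comp (Φ.symm : E →⋆ₐ[ℂ] A)
    have h1 : ∀ a, χ' (j a) = φ a := fun a => char_eq hE χ' a
    have h2 : φ (e 0 (cc 0) * e 0 (cc 0)) = φ (e 0 (cc 0)) * φ (e 0 (cc 0)) := by
      rw [← h1, ← h1, map_mul, map_mul]
    have h3 : φ (e 0 (cc 0)) = 0 := by
      rw [h.marginal]
      exact tr_cc 0
    have h4 : φ (e 0 (cc 0) * e 0 (cc 0)) = 1 := by
      rw [← map_mul, cc_sq, map_add, map_one, map_smul, map_add, map_smul, h.state.one, h3,
        smul_zero, add_zero]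
    rw [h4, h3, mul_zero] at h2
    exact one_ne_zero h2

end Pool.Agent.Results.MP_88a42c_an.CharacterObstruction
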